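import Pool.Agent.H65.CRZ.TN

/-!
# The convolution identity
-/

set_option autoImplicit false

open scoped Classical

namespace Pool.Agent.H34.CRZ

open Pool.Agent.H37.CV Pool.Agent.H65.CRZ

variable {α : Type} {N : α → ℝ}

theorem nS_one_le (hN : ∀ P, 2 ≤ N P) (S : Finset α) : (1 : ℝ) ≤ nS N S := by
  unfold nS
  induction S using Finset.induction_on with
  | empty => simp
  | insert a s ha ih =>
    rw [Finset.prod_insert ha]
    have h2 := hN a
    nlinarith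

theorem nS_union {S T : Finset α} (h : Disjoint T S) : nS N (S ∪ T) = nS N S * nS N T := by
  unfold nS
  exact Finset.prod_union h.symm

theorem mem_DS {A S : Finset α} {x : ℝ} : S ∈ DS N A x ↔ S ⊆ A ∧ nS N S ≤ x := by
  unfold DS
  rw [Finset.mem_filter, Finset.mem_powerset]

theorem reindex (hN : ∀ P, 2 ≤ N P) (A : Finset α) (x : ℝ) (G : Finset α → Finset α → ℂ) :
    ∑ S ∈ DS N A x, ∑ T ∈ (DS N A (x / nS N S)).filter (fun T => Disjoint T S), G S T =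
      ∑ U ∈ DS N A x, ∑ S ∈ U.powerset, G S (U \ S) := by
  rw [Finset.sum_sigma', Finset.sum_sigma']
  refine Finset.sum_nbij' (fun p => (⟨p.1 ∪ p.2, p.1⟩ : Σ _ : Finset α, Finset α))
    (fun p => (⟨p.2, p.1 \ p.2⟩ : Σ _ : Finset α, Finset α)) ?_ ?_ ?_ ?_ ?_
  · rintro ⟨S, T⟩ h
    obtain ⟨h1, h2⟩ := Finset.mem_sigma.1 h
    obtain ⟨h3, h4⟩ := Finset.mem_filter.1 h2
    obtain ⟨hSA, hSx⟩ := mem_DS.1 h1
    obtain ⟨hTA, hTx⟩ := mem_DS.1 h3
    have hpos : 0 < nS N S := lt_of_lt_of_le one_pos (nS_one_le hN S)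
    refine Finset.mem_sigma.2 ⟨mem_DS.2 ⟨Finset.union_subset hSA hTA, ?_⟩, ?_⟩
    · change nS N (S ∪ T) ≤ x
      rw [nS_union h4, mul_comm]
      exact (le_div_iff₀ hpos).1 hTx
    · exact Finset.mem_powerset.2 Finset.subset_union_left
  · rintro ⟨U, S⟩ h
    obtain ⟨h1, h2⟩ := Finset.mem_sigma.1 h
    obtain ⟨hUA, hUx⟩ := mem_DS.1 h1
    have hSU : S ⊆ U := Finset.mem_powerset.1 h2
    have hpos : 0 < nS N S := lt_of_lt_of_le one_pos (nS_one_le hN S)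
    have hd : Disjoint (U \ S) S := Finset.sdiff_disjoint
    have hU : S ∪ U \ S = U := Finset.union_sdiff_of_subset hSU
    have hprod : nS N S * nS N (U \ S) ≤ x := by
      rw [← nS_union hd, hU]
      exact hUx
    have h1' := nS_one_le hN (U \ S)
    refine Finset.mem_sigma.2 ⟨mem_DS.2 ⟨hSU.trans hUA, ?_⟩, Finset.mem_filter.2
      ⟨mem_DS.2 ⟨Finset.sdiff_subset.trans hUA, ?_⟩, hd⟩⟩
    · exact le_trans (le_mul_of_one_le_right hpos.le h1') hprod
    · rw [le_div_iff₀ hpos, mul_comm]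
      exact hprod
  · rintro ⟨S, T⟩ h
    obtain ⟨h1, h2⟩ := Finset.mem_sigma.1 h
    obtain ⟨h3, h4⟩ := Finset.mem_filter.1 h2
    have e : (S ∪ T) \ S = T := by
      rw [Finset.union_sdiff_left]
      exact Finset.sdiff_eq_self_of_disjoint h4
    change (⟨S, (S ∪ T) \ S⟩ : Σ _ : Finset α, Finset α) = ⟨S, T⟩
    rw [e]
  · rintro ⟨U, S⟩ h
    obtain ⟨h1, h2⟩ := Finset.mem_sigma.1 h
    have hSU : S ⊆ U := Finset.mem_powerset.1 h2
    change (⟨S ∪ U \ S, S⟩ : Σ _ : Finset α, Finset α) = ⟨U, S⟩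
    rw [Finset.union_sdiff_of_subset hSU]
  · rintro ⟨S, T⟩ h
    obtain ⟨h1, h2⟩ := Finset.mem_sigma.1 h
    obtain ⟨h3, h4⟩ := Finset.mem_filter.1 h2
    have e : (S ∪ T) \ S = T := by
      rw [Finset.union_sdiff_left]
      exact Finset.sdiff_eq_self_of_disjoint h4
    change G S T = G S ((S ∪ T) \ S)
    rw [e]

theorem pf_EI : T_EI := by
  intro α N A x β hN
  have h1 : ∀ S ∈ DS N A x, ((nS N S : ℝ) : ℂ) ^ (-β) / ((fS N S : ℝ) : ℂ) *
      Eb N A S (x / nS N S) β =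
      ∑ T ∈ (DS N A (x / nS N S)).filter (fun T => Disjoint T S),
        ((nS N S : ℝ) : ℂ) ^ (-β) / ((fS N S : ℝ) : ℂ) * bP N β T := by
    intro S _
    unfold Eb
    rw [Finset.mul_sum]
  rw [Finset.sum_congr rfl h1, reindex hN A x
    (fun S T => ((nS N S : ℝ) : ℂ) ^ (-β) / ((fS N S : ℝ) : ℂ) * bP N β T)]
  unfold GS
  push_cast
  refine Finset.sum_congr rfl fun U _ => ?_
  have hp : ∀ P, (0 : ℝ) ≤ N P := fun P => le_trans (by norm_num) (hN P)
  have hcp : ∀ S : Finset α, ((nS N S : ℝ) : ℂ) ^ (-β) = ∏ P ∈ S, ((N P : ℝ) : ℂ) ^ (-β) := by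
    intro S
    unfold nS
    induction S using Finset.induction_on with
    | empty => simp
    | insert a s ha ih =>
      rw [Finset.prod_insert ha, Finset.prod_insert ha, ← ih, Complex.ofReal_mul,
        Complex.mul_cpow_ofReal_nonneg (hp a) (Finset.prod_nonneg fun P _ => hp P)]
  have hterm : ∀ S ∈ U.powerset, ((nS N S : ℝ) : ℂ) ^ (-β) / ((fS N S : ℝ) : ℂ) *
      bP N β (U \ S) = (((fS N U : ℝ) : ℂ))⁻¹ *
      ((∏ P ∈ S, ((N P : ℝ) : ℂ) ^ (-β)) * ∏ P ∈ U \ S, (1 - ((N P : ℝ) : ℂ) ^ (-β))) := by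
    intro S hS
    have hSU : S ⊆ U := Finset.mem_powerset.1 hS
    have hf : fS N U = fS N S * fS N (U \ S) := by
      unfold fS
      rw [mul_comm, Finset.prod_sdiff hSU]
    rw [hcp, hf]
    unfold bP
    rw [Finset.prod_div_distrib]
    have e : ∏ P ∈ U \ S, ((N P - 1 : ℝ) : ℂ) = ((fS N (U \ S) : ℝ) : ℂ) := by
      unfold fS
      push_cast
      rfl
    rw [e, Complex.ofReal_mul, mul_inv, div_eq_mul_inv, div_eq_mul_inv]
    ring
  rw [Finset.sum_congr rfl hterm, ← Finset.mul_sum, ← Finset.prod_add]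
  have h2 : ∏ P ∈ U, (((N P : ℝ) : ℂ) ^ (-β) + (1 - ((N P : ℝ) : ℂ) ^ (-β))) = 1 := by
    refine Finset.prod_eq_one fun P _ => ?_
    ring
  rw [h2, mul_one]

end Pool.Agent.H34.CRZ
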